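import Pool.Agent.helper88.RQ2.Spec

open Set Matroid RadonMin

namespace RadonQ2

theorem ESUM_sub {V : Type} [AddCommGroup V] [Module ℝ V] [DecidableEq V]
    (hsub : ∀ A B : Finset V, ra (A ∪ B) ≤ ra A + ra B) (h0 : ra (∅ : Finset V) = 0)
    (P : Finset (Finset V)) :
    ∀ X : Finset V, (∀ x, x ∈ X ↔ ∃ B ∈ P, x ∈ B) → ra X ≤ ∑ B ∈ P, ra B := by
  classical
  induction P using Finset.induction_on with
  | empty =>
    intro X hX
    have hXe : X = ∅ := by
      apply Finset.eq_empty_of_forall_notMem
      intro x hx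
      obtain ⟨B, hB, _⟩ := (hX x).1 hx
      exact absurd hB (Finset.notMem_empty B)
    subst hXe
    simp [h0]
  | insert B P hBP ih =>
    intro X hX
    rw [Finset.sum_insert hBP]
    have h1 : X = B ∪ P.biUnion id := by
      ext x
      rw [hX, Finset.mem_union, Finset.mem_biUnion]
      constructor
      · rintro ⟨C, hC, hx⟩
        rcases Finset.mem_insert.1 hC with rfl | hC
        · exact Or.inl hx
        · exact Or.inr ⟨C, hC, hx⟩
      · rintro (hx | ⟨C, hC, hx⟩)
        · exact ⟨B, Finset.mem_insert_self _ _, hx⟩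
        · exact ⟨C, Finset.mem_insert_of_mem hC, hx⟩
    have h2 := ih (P.biUnion id) (fun x => by rw [Finset.mem_biUnion]; rfl)
    rw [h1]
    exact (hsub _ _).trans (Nat.add_le_add_left h2 _)

theorem ESUM_proof (hEB : EB_stmt) (hECI : ECI_stmt) : ESUM_stmt := by
  classical
  intro V _ _ _ P
  obtain ⟨_, _, hsub, _, h0, _, _⟩ := hEB V
  induction P using Finset.induction_on with
  | empty =>
    intro X _ hX _
    have hXe : X = ∅ := by
      apply Finset.eq_empty_of_forall_notMem
      intro x hx
      obtain ⟨B, hB, _⟩ := (hX x).1 hx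
      exact absurd hB (Finset.notMem_empty B)
    subst hXe
    have h1 : ci (∅ : Finset V) = ci (∅ : Finset V) + ci ((∅ : Finset V) \ ∅) :=
      hECI V ∅ ∅ (Finset.Subset.refl _) (by rw [Finset.sdiff_self, h0])
    rw [Finset.sdiff_self] at h1
    refine ⟨?_, ?_⟩
    · rw [Finset.sum_empty]; omega
    · rw [Finset.sum_empty, Finset.card_empty]
  | insert B P hBP ih =>
    intro X hdis hX hsum
    rw [Finset.sum_insert hBP] at hsum
    have hdisP : (P : Set (Finset V)).PairwiseDisjoint id := by
      refine hdis.subset ?_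
      intro C hC
      exact Finset.mem_coe.2 (Finset.mem_insert_of_mem (Finset.mem_coe.1 hC))
    have hBC : ∀ C ∈ P, Disjoint B C := by
      intro C hC
      have hne : B ≠ C := by
        rintro rfl
        exact hBP hC
      exact hdis (Finset.mem_coe.2 (Finset.mem_insert_self B P))
        (Finset.mem_coe.2 (Finset.mem_insert_of_mem hC)) hne
    have hBX : B ⊆ X := fun x hx => (hX x).2 ⟨B, Finset.mem_insert_self B P, hx⟩
    have hX' : ∀ x, x ∈ X \ B ↔ ∃ C ∈ P, x ∈ C := by
      intro x
      rw [Finset.mem_sdiff, hX]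
      constructor
      · rintro ⟨⟨C, hC, hx⟩, hxB⟩
        rcases Finset.mem_insert.1 hC with rfl | hC
        · exact absurd hx hxB
        · exact ⟨C, hC, hx⟩
      · rintro ⟨C, hC, hx⟩
        exact ⟨⟨C, Finset.mem_insert_of_mem hC, hx⟩,
          fun hxB => (Finset.disjoint_left.1 (hBC C hC)) hxB hx⟩
    have h1 : ra (X \ B) ≤ ∑ C ∈ P, ra C := ESUM_sub hsub h0 P (X \ B) hX'
    have hU : B ∪ (X \ B) = X := Finset.union_sdiff_of_subset hBX
    have h2 : ra X ≤ ra B + ra (X \ B) := by
      have h := hsub B (X \ B)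
      rw [hU] at h
      exact h
    have h3 : ra B + ra (X \ B) = ra X := by omega
    have h4 : ∑ C ∈ P, ra C = ra (X \ B) := by omega
    obtain ⟨h5, h6⟩ := ih (X \ B) hdisP hX' h4
    have h7 := hECI V X B hBX h3
    rw [Finset.sum_insert hBP, Finset.sum_insert hBP]
    refine ⟨by rw [h7, h5], ?_⟩
    rw [← h6, Finset.card_sdiff_of_subset hBX]
    have := Finset.card_le_card hBX
    omega

end RadonQ2
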